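import Mathlib
import Pool.Agent.Y205.AV.Large
import Pool.Agent.TH167.SH.Segre
import Pool.Agent.H248R5.Gen
import Pool.Agent.Y210.EF.Expo

set_option autoImplicit false

/-!
# Segre's conjecture for all classes with a large standard form, on one explicit surface

Let `P` be `n ≥ 4` points of the complex plane: either the explicit points with the affine coordinates
`exp (2 ^ (k / (2 n)))`, `k = 0, …, 2 n - 1`, or any points whose `2 n` coordinates are algebraically
independent over `ℚ`. For ALL classes `(d; w)` at once: if `(d; w)` is large, its linear system is not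
special; if it is special, then twice a `(-1)`-curve is a fixed part of it, or, after the removal of
disjoint `(-1)`-curves, each taken once, and finitely many quadratic transformations, it is a special
standard class of the same dimension which is not large.
-/

namespace Pool.Agent.Results.MP_cfebfb_ag.SegreExplicitSurface

open MvPolynomial Pool.Agent.TH167.SHDefs Pool.Agent.Y205.AV
open Pool.Agent.Y536.SH (Standard hh_full)

/-- The `n` points with the affine coordinates `exp (2 ^ (k / (2 n)))`, `k = 0, 1, …, 2 n - 1`. -/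
noncomputable def explicitPoints (n : ℕ) : Fin n → Fin 2 → ℂ := fun i j =>
  Complex.exp (((2 : ℝ) ^ (((2 * (i : ℕ) + (j : ℕ) : ℕ) : ℝ) / (2 * n)) : ℝ) : ℂ)

theorem clear {σ : Type*} (F : MvPolynomial σ ℚ) : ∃ (N : ℕ) (G : MvPolynomial σ ℤ), 0 < N ∧
    G.map (Int.castRingHom ℚ) = C (N : ℚ) * F := by
  induction F using MvPolynomial.induction_on with
  | C a =>
    refine ⟨a.den, C a.num, a.den_pos, ?_⟩
    rw [map_C, ← C_mul]
    congr 1
    rw [mul_comm]
    exact (Rat.mul_den_eq_num a).symm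
  | add p q hp hq =>
    obtain ⟨N1, G1, h1, e1⟩ := hp
    obtain ⟨N2, G2, h2, e2⟩ := hq
    refine ⟨N1 * N2, C (N2 : ℤ) * G1 + C (N1 : ℤ) * G2, Nat.mul_pos h1 h2, ?_⟩
    rw [map_add, map_mul, map_mul, map_C, map_C, e1, e2]
    push_cast
    rw [C_mul]
    simp only [eq_intCast, Int.cast_natCast]
    ring
  | mul_X p i hp =>
    obtain ⟨N, G, h1, e1⟩ := hp
    refine ⟨N, G * X i, h1, ?_⟩
    rw [map_mul, map_X, e1]
    ring

theorem explicit_indep {n : ℕ} (hn : 1 ≤ n) :
    AlgebraicIndependent ℚ (fun ij : Fin n × Fin 2 => explicitPoints n ij.1 ij.2) := by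
  rw [algebraicIndependent_iff]
  intro F hF
  by_contra hne
  obtain ⟨N, G, hN, hG⟩ := clear F
  have hG0 : G ≠ 0 := by
    rintro rfl
    rw [map_zero] at hG
    have h1 : C (N : ℚ) * F ≠ 0 := mul_ne_zero (by
      rw [Ne, C_eq_zero]
      exact_mod_cast hN.ne') hne
    exact h1 hG.symm
  apply Pool.Agent.Y210.EF.exp_points hn hG0
  have h1 : MvPolynomial.aeval (fun ij : Fin n × Fin 2 => explicitPoints n ij.1 ij.2)
      (G.map (Int.castRingHom ℚ)) = 0 := by
    rw [hG, map_mul, hF, mul_zero]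
  rw [MvPolynomial.aeval_def, MvPolynomial.eval₂_map] at h1
  have h2 : (algebraMap ℚ ℂ).comp (Int.castRingHom ℚ) = Int.castRingHom ℂ := RingHom.ext_int _ _
  rw [h2] at h1
  exact h1

/-- **Main result.** -/
theorem result (n : ℕ) (hn : 4 ≤ n) (P : Fin n → Fin 2 → ℂ)
    (hP : P = explicitPoints n ∨
      AlgebraicIndependent ℚ (fun ij : Fin n × Fin 2 => P ij.1 ij.2))
    (d : ℕ) (w : Fin n → ℕ) :
    (Large d w → ¬ Special P d w) ∧
      (Special P d w →
        (∃ (G : MvPolynomial (Fin 3) ℂ) (e : ℕ) (u : Fin n → ℕ),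
          MinusOne P G e u ∧ inter d w e u ≤ -2 ∧ ∀ f ∈ sys P d w, G ^ 2 ∣ f) ∨
        ∃ (d'' : ℕ) (w'' : Fin n → ℕ) (k : ℕ) (G : Fin k → MvPolynomial (Fin 3) ℂ)
          (e : Fin k → ℕ) (u : Fin k → Fin n → ℕ) (d' : ℕ) (w' : Fin n → ℕ),
          Decomp P d w d'' w'' G e u (fun _ => 1) ∧
          Relation.ReflTransGen Quadratic (d'', w'') (d', w') ∧ Standard d' w' ∧
          dimL P d' w' = dimL P d w ∧ Special P d' w' ∧ ¬ Large d' w') := by
  have hP0 : AlgebraicIndependent ℚ (fun ij : Fin n × Fin 2 => P ij.1 ij.2) := by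
    rcases hP with rfl | hP
    · exact explicit_indep (by omega)
    · exact hP
  refine ⟨fun hL => ?_, fun hs => ?_⟩
  · have h := large_exp hL hP0
    have h1 : Module.finrank ℂ ↥(sys P d w) =
        Nat.choose (d + 2) 2 - ∑ i, Nat.choose (w i + 1) 2 := h
    have h2 : ∑ i, ((w i + 1).choose 2 : ℤ) = ((∑ i, Nat.choose (w i + 1) 2 : ℕ) : ℤ) := by
      push_cast
      rfl
    unfold Special dimL virtdim
    rw [h1, h2]
    push Not
    omega
  · obtain ⟨r, rfl⟩ : ∃ r, n = r + 4 := ⟨n - 4, by omega⟩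
    obtain ⟨F, hF, hF'⟩ := hh_full (Q := fun d' w' => Large d' w')
      (fun hP d1 w1 _ hG => large_exp hG hP) d w
    have hinj : Function.Injective P := by
      intro i j hij
      by_contra hne
      have h1 := hP0.injective
      have h2 : ((i, (0 : Fin 2)) : Fin (r + 4) × Fin 2) = (j, 0) := h1 (by
        show P i 0 = P j 0
        rw [hij])
      exact hne (congrArg Prod.fst h2)
    rw [Pool.Agent.TH167.SH.special_conv] at hs
    have hcur : ∀ {G : MvPolynomial (Fin 3) ℂ} {e : ℕ} {u : Fin (r + 4) → ℕ}, MinusOne P G e u →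
        inter d w e u ≤ -2 → ∃ (G : MvPolynomial (Fin 3) ℂ) (e : ℕ) (u : Fin (r + 4) → ℕ),
          MinusOne P G e u ∧ inter d w e u ≤ -2 ∧ ∀ f ∈ sys P d w, G ^ 2 ∣ f :=
      fun {G e u} h1 h2 => ⟨G, e, u, h1, h2, fun f hf =>
        Pool.Agent.TH167.SH.curve_sq_dvd hinj h1 h2 hf⟩
    rcases hF' ℂ P (Pool.Agent.TH167.SH.evP_ne hP0 hF) hs with h |
      ⟨d', w', k, C, e, u, N, d1, w1, h1, h2, h3, h4, h5, h6⟩
    · left
      obtain ⟨G, e, u, c1, c2⟩ :=
        Pool.Agent.TH167.SH.mspecial_curve ((Pool.Agent.TH167.SH.mspecial_conv P d w).2 h)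
      exact hcur c1 c2
    · by_cases hN : ∃ a, 2 ≤ N a
      · left
        obtain ⟨a, ha⟩ := hN
        refine hcur (Pool.Agent.TH167.SH.minusOne_iff.2 (h1.exc a)) ?_
        rw [Pool.Agent.TH167.SH.inter_eq, h1.neg a]
        omega
      · right
        push Not at hN
        have hN1 : N = fun _ => 1 := by
          funext a
          have := h1.pos a
          have := hN a
          omega
        subst hN1
        refine ⟨d', w', k, C, e, u, d1, w1, Pool.Agent.TH167.SH.decomp_iff.2 h1,
          Pool.Agent.TH167.SH.chain_conv h2, h3, ?_,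
          (Pool.Agent.TH167.SH.special_conv P d1 w1).2 h4, h6⟩
        rw [Pool.Agent.TH167.SH.dimL_eq, Pool.Agent.TH167.SH.dimL_eq, h5]

end Pool.Agent.Results.MP_cfebfb_ag.SegreExplicitSurface
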