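import Pool.Agent.Y205.MD.Free3

/-!
# Segre's conjecture for several multiplicities with arbitrary ratios, every degree

General points of the complex projective plane with multiplicities `w i`, `i = 1, …, n`. Let
`D = √(∑ (w i) ^ 2)`, and let `μ` be the maximal multiplicity. Assume `n ≤ D`. Let `E` be a set of
points with `30 μ ∑_E w i ≤ D` (for instance none). Assume that outside `E` there are `r` different
multiplicities with `40 r μ ≤ D`, that one of them is `μ`, and that every multiplicity `v ≥ 1` which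
is attained outside `E` is attained there `N` times with `N v ≥ 16 μ` and
`N μ (4 v + μ) ≥ 10 ∑ w i`.

Then the linear system of the curves of degree `d` with the multiplicities `w i` has the expected
dimension for EVERY `d`, so it is never special. The number of different multiplicities and their
ratios are not bounded.
-/

set_option autoImplicit false

namespace Pool.Agent.Results.MP_cfebfb_ag.SeveralMultiplicities

open Pool.Agent Finset

theorem result (n : ℕ) (w : Fin n → ℕ) (E : Finset (Fin n)) (μ : ℕ) (D : ℝ)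
    (hD : D = √(∑ i, (w i : ℝ) ^ 2)) (hμ : ∀ i, w i ≤ μ) (hμ' : ∃ i ∉ E, w i = μ)
    (hpos : ∀ i ∉ E, 1 ≤ w i) (hn : (n : ℝ) ≤ D)
    (hE : 30 * (μ : ℝ) * ∑ i ∈ E, (w i : ℝ) ≤ D)
    (hr : 40 * ((Eᶜ.image w).card : ℝ) * μ ≤ D)
    (h1 : ∀ i ∉ E, 16 * (μ : ℝ) ≤ ((Eᶜ.filter fun j => w j = w i).card : ℝ) * w i)
    (h2 : ∀ i ∉ E, 10 * ∑ j, (w j : ℝ) ≤
      ((Eᶜ.filter fun j => w j = w i).card : ℝ) * (μ * (4 * w i + μ))) :
    ∃ F : MvPolynomial (Fin n × Fin 2) ℂ, F ≠ 0 ∧
      ∀ P : Fin n → Fin 2 → ℂ,
        MvPolynomial.eval (fun ij : Fin n × Fin 2 => P ij.1 ij.2) F ≠ 0 →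
        ∀ d : ℕ,
          Module.finrank ℂ
            ↥(MvPolynomial.homogeneousSubmodule (Fin 3) ℂ d ⊓
              Submodule.restrictScalars ℂ
                (⨅ i : Fin n,
                  (Ideal.span
                    ({MvPolynomial.X 0 - MvPolynomial.C (P i 0) * MvPolynomial.X 2,
                      MvPolynomial.X 1 - MvPolynomial.C (P i 1) * MvPolynomial.X 2} :
                      Set (MvPolynomial (Fin 3) ℂ))) ^ (w i)))
          = Nat.choose (d + 2) 2 - ∑ i, Nat.choose (w i + 1) 2 := by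
  classical
  obtain ⟨F, hF, hF'⟩ := Y205.MD.every_degree_free3 E hD hμ hμ' hpos hn hr h1 h2 hE
  refine ⟨F.map (algebraMap ℚ ℂ), H932R3.map_ne_zero_of hF, fun P hP d => ?_⟩
  rw [MvPolynomial.eval_map] at hP
  exact hF' P hP d

end Pool.Agent.Results.MP_cfebfb_ag.SeveralMultiplicities
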